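import Pool.Agent.KIR.S4.Elim

/-!
# PROJECT KIR, section S4: classification of the stable graded primes
-/

set_option autoImplicit false

namespace Pool.Agent.KIR

open MvPolynomial

namespace Cls

section general
variable {σ ρ : Type}

/-- zero set of an ideal -/
def zl (P : Ideal (S σ)) : Set (σ → ℂ) := {z | ∀ f ∈ P, eval z f = 0}

theorem eval_op (g : σ → Option σ) (z : σ → ℂ) (t : ℂ) (f : S σ) :
    Polynomial.eval t (Polynomial.map (eval z) (op g f)) =
      eval (fun s => z s + t * (g s).elim 0 z) f := by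
  have h : ((Polynomial.evalRingHom t).comp (Polynomial.mapRingHom (eval z))).comp
      ((op g : S σ →ₐ[ℂ] Polynomial (S σ)) : S σ →+* Polynomial (S σ)) =
      eval (fun s => z s + t * (g s).elim 0 z) := by
    refine MvPolynomial.ringHom_ext ?_ ?_
    · intro r
      simp [op, MvPolynomial.algebraMap_eq, Polynomial.algebraMap_apply]
    · intro s
      cases h : g s with
      | none => simp [op, h]
      | some s' =>
        simp [op, h]
        ring
  exact congrArg (fun φ : S σ →+* ℂ => φ f) h

theorem zl_op (g : σ → Option σ) (P : Ideal (S σ)) (h : Stab g P) (z : σ → ℂ) (hz : z ∈ zl P)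
    (t : ℂ) : (fun s => z s + t * (g s).elim 0 z) ∈ zl P := by
  intro f hf
  rw [← eval_op]
  have e : Polynomial.map (eval z) (op g f) = 0 := by
    ext k
    rw [Polynomial.coeff_map, Polynomial.coeff_zero]
    exact hz _ (h f hf k)
  rw [e, Polynomial.eval_zero]

theorem char_sum (θ : AddChar (ρ → ℤ) ℂ) (s : Finset σ) (u : σ → (ρ → ℤ)) :
    θ (∑ i ∈ s, u i) = ∏ i ∈ s, θ (u i) := by
  classical
  induction s using Finset.induction_on with
  | empty => rw [Finset.sum_empty, Finset.prod_empty, AddChar.map_zero_eq_one]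
  | insert a s ha ih => rw [Finset.sum_insert ha, Finset.prod_insert ha, AddChar.map_add_eq_mul, ih]

theorem eval_hom (W : σ → (ρ → ℤ)) (θ : AddChar (ρ → ℤ) ℂ) (z : σ → ℂ) (w : ρ → ℤ) (f : S σ)
    (hf : IsWeightedHomogeneous W f w) :
    eval (fun s => θ (W s) * z s) f = θ w * eval z f := by
  rw [eval_eq, eval_eq, Finset.mul_sum]
  refine Finset.sum_congr rfl fun d hd => ?_
  have hw : Finsupp.weight W d = w := hf (mem_support_iff.1 hd)
  have e : ∏ i ∈ d.support, (θ (W i) * z i) ^ d i = θ w * ∏ i ∈ d.support, z i ^ d i := by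
    have e1 : θ w = ∏ i ∈ d.support, θ (W i) ^ d i := by
      rw [← hw, Finsupp.weight_apply, Finsupp.sum, char_sum]
      refine Finset.prod_congr rfl fun i _ => ?_
      rw [AddChar.map_nsmul_eq_pow]
    rw [e1, ← Finset.prod_mul_distrib]
    refine Finset.prod_congr rfl fun i _ => ?_
    rw [mul_pow]
  rw [e]
  ring

theorem zl_tor (W : σ → (ρ → ℤ)) (P : Ideal (S σ)) (h : TG W P) (θ : AddChar (ρ → ℤ) ℂ)
    (z : σ → ℂ) (hz : z ∈ zl P) : (fun s => θ (W s) * z s) ∈ zl P := by
  intro f hf
  have h1 := sum_weightedHomogeneousComponent W f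
  rw [← h1]
  have h2 := AddMonoidHom.map_finsum (eval (fun s => θ (W s) * z s) : S σ →+* ℂ).toAddMonoidHom
    (weightedHomogeneousComponent_finsupp (w := W) f)
  rw [show (eval (fun s => θ (W s) * z s)) (∑ᶠ m, weightedHomogeneousComponent W m f) =
    (eval (fun s => θ (W s) * z s) : S σ →+* ℂ).toAddMonoidHom
      (∑ᶠ m, weightedHomogeneousComponent W m f) from rfl, h2]
  have e : ∀ m, (eval (fun s => θ (W s) * z s) : S σ →+* ℂ).toAddMonoidHom
      (weightedHomogeneousComponent W m f) = 0 := by
    intro m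
    change eval (fun s => θ (W s) * z s) (weightedHomogeneousComponent W m f) = 0
    rw [eval_hom W θ z m _ (weightedHomogeneousComponent_isWeightedHomogeneous m f),
      hz _ (h f hf m), mul_zero]
  simp only [e, finsum_zero]

end general

section mat
variable {n m : ℕ}

/-- row scaling character -/
noncomputable def chr (a : Fin n) (d : ℂ) (hd : d ≠ 0) : AddChar (Fin n ⊕ Fin m → ℤ) ℂ where
  toFun α := d ^ (α (Sum.inl a))
  map_zero_eq_one' := by simp
  map_add_eq_mul' α β := by
    rw [Pi.add_apply, zpow_add₀ hd]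

/-- column scaling character -/
noncomputable def chc (a : Fin m) (d : ℂ) (hd : d ≠ 0) : AddChar (Fin n ⊕ Fin m → ℤ) ℂ where
  toFun α := d ^ (- α (Sum.inr a))
  map_zero_eq_one' := by simp
  map_add_eq_mul' α β := by
    rw [Pi.add_apply, neg_add, zpow_add₀ hd]

theorem chr_apply (a : Fin n) (d : ℂ) (hd : d ≠ 0) (s : Fin n × Fin m) :
    chr a d hd (Wm s) = if a = s.1 then d else 1 := by
  change d ^ (Wm s (Sum.inl a)) = _
  by_cases h : a = s.1
  · simp [Wm, h]
  · simp [Wm, h]

theorem chc_apply (a : Fin m) (d : ℂ) (hd : d ≠ 0) (s : Fin n × Fin m) :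
    chc a d hd (Wm s) = if a = s.2 then d else 1 := by
  change d ^ (- Wm s (Sum.inr a)) = _
  by_cases h : a = s.2
  · simp [Wm, h]
  · simp [Wm, h]

theorem clo_row (P : Ideal (S (Fin n × Fin m))) (hT : TG Wm P) (hB : BStab P) :
    Clo (n := n) (M := Fin m → ℂ) {y | (fun s : Fin n × Fin m => y s.1 s.2) ∈ zl P} where
  add z hz a b hba t := by
    have h := zl_op (rg a b) P (hB.1 b a hba) _ hz t
    have e : (fun s : Fin n × Fin m => z s.1 s.2 + t * (rg a b s).elim 0
        (fun s : Fin n × Fin m => z s.1 s.2)) =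
        fun s : Fin n × Fin m => Function.update z a (z a + t • z b) s.1 s.2 := by
      funext s
      obtain ⟨i, j⟩ := s
      by_cases hi : i = a
      · subst hi
        simp [rg]
      · simp [rg, hi]
    change (fun s : Fin n × Fin m => Function.update z a (z a + t • z b) s.1 s.2) ∈ zl P
    rw [← e]
    exact h
  scl z hz a d hd := by
    have h := zl_tor Wm P hT (chr a d hd) _ hz
    have e : (fun s : Fin n × Fin m => chr a d hd (Wm s) * (fun s : Fin n × Fin m => z s.1 s.2) s) =
        fun s : Fin n × Fin m => Function.update z a (d • z a) s.1 s.2 := by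
      funext s
      rw [chr_apply]
      obtain ⟨i, j⟩ := s
      by_cases hi : a = i
      · subst hi
        simp
      · simp [hi, Function.update_of_ne (Ne.symm hi)]
    change (fun s : Fin n × Fin m => Function.update z a (d • z a) s.1 s.2) ∈ zl P
    rw [← e]
    exact h

theorem clo_col (P : Ideal (S (Fin n × Fin m))) (hT : TG Wm P) (hB : BStab P) :
    Clo (n := m) (M := Fin n → ℂ) {y | (fun s : Fin n × Fin m => y s.2 s.1) ∈ zl P} where
  add z hz a b hba t := by
    have h := zl_op (cg b a) P (hB.2 b a hba) _ hz t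
    have e : (fun s : Fin n × Fin m => z s.2 s.1 + t * (cg b a s).elim 0
        (fun s : Fin n × Fin m => z s.2 s.1)) =
        fun s : Fin n × Fin m => Function.update z a (z a + t • z b) s.2 s.1 := by
      funext s
      obtain ⟨i, j⟩ := s
      by_cases hj : j = a
      · subst hj
        simp [cg]
      · simp [cg, hj]
    change (fun s : Fin n × Fin m => Function.update z a (z a + t • z b) s.2 s.1) ∈ zl P
    rw [← e]
    exact h
  scl z hz a d hd := by
    have h := zl_tor Wm P hT (chc a d hd) _ hz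
    have e : (fun s : Fin n × Fin m => chc a d hd (Wm s) * (fun s : Fin n × Fin m => z s.2 s.1) s) =
        fun s : Fin n × Fin m => Function.update z a (d • z a) s.2 s.1 := by
      funext s
      rw [chc_apply]
      obtain ⟨i, j⟩ := s
      by_cases hj : a = j
      · subst hj
        simp
      · simp [hj, Function.update_of_ne (Ne.symm hj)]
    change (fun s : Fin n × Fin m => Function.update z a (d • z a) s.2 s.1) ∈ zl P
    rw [← e]
    exact h

theorem zl_mul_iff (P : Ideal (S (Fin n × Fin m))) (hT : TG Wm P) (hB : BStab P)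
    (A : Matrix (Fin n) (Fin m) ℂ) (b : Matrix (Fin n) (Fin n) ℂ) (b' : Matrix (Fin m) (Fin m) ℂ)
    (h1 : ∀ i j, i < j → b i j = 0) (h2 : ∀ i, b i i ≠ 0) (h3 : ∀ i j, j < i → b' i j = 0)
    (h4 : ∀ i, b' i i ≠ 0) :
    (fun s : Fin n × Fin m => A s.1 s.2) ∈ zl P ↔
      (fun s : Fin n × Fin m => (b * A * b') s.1 s.2) ∈ zl P := by
  have hr := tri_iff (clo_row P hT hB) b h1 h2 (fun i j => A i j)
  have hc := tri_iff (clo_col P hT hB) b'.transpose (fun i j hij => h3 j i hij) (fun i => h4 i)
    (fun j i => (b * A) i j)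
  have er : (fun i => ∑ l, b i l • (fun i j => A i j) l) = fun i j => (b * A) i j := by
    funext i j
    rw [Matrix.mul_apply, Finset.sum_apply]
    rfl
  have ec : (fun j => ∑ l, b'.transpose j l • (fun (j : Fin m) (i : Fin n) => (b * A) i j) l) =
      fun j i => (b * A * b') i j := by
    funext j i
    rw [Matrix.mul_apply, Finset.sum_apply]
    refine Finset.sum_congr rfl fun l _ => ?_
    change b' l j * (b * A) i l = _
    rw [mul_comm]
  rw [er] at hr
  rw [ec] at hc
  exact hr.trans hc

theorem orb_sub (P : Ideal (S (Fin n × Fin m))) (hT : TG Wm P) (hB : BStab P)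
    (c : Fin n → Option (Fin m)) (z : Fin n × Fin m → ℂ) (hz : z ∈ Orb c) (hzP : z ∈ zl P) :
    Orb c ⊆ zl P := by
  obtain ⟨b, b', h1, h2, h3, h4, h5⟩ := hz
  have hM : (fun s : Fin n × Fin m => Mc c s.1 s.2) ∈ zl P := by
    rw [zl_mul_iff P hT hB (Mc c) b b' h1 h2 h3 h4]
    have e : z = fun s : Fin n × Fin m => (b * Mc c * b') s.1 s.2 := funext h5
    rw [← e]
    exact hzP
  rintro y ⟨b2, b2', k1, k2, k3, k4, k5⟩
  have e : y = fun s : Fin n × Fin m => (b2 * Mc c * b2') s.1 s.2 := funext k5
  rw [e, ← zl_mul_iff P hT hB (Mc c) b2 b2' k1 k2 k3 k4]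
  exact hM

theorem exists_orb (z : Fin n × Fin m → ℂ) : ∃ c : Fin n → Option (Fin m), PInj c ∧ z ∈ Orb c := by
  obtain ⟨b, b', c, h1, h2, h3, h4, h5, _, h7⟩ := elim n (fun i j => z (i, j)) ∅
    (fun _ _ h => h.elim)
  refine ⟨c, h5, b, b', h1, h2, h3, h4, fun s => ?_⟩
  rw [← h7]

end mat

end Cls

open Cls in
theorem t_CLASS : S_CLASS := by
  classical
  intro n m P hP hT hB
  set C : Finset (Fin n → Option (Fin m)) :=
    Finset.univ.filter fun c => PInj c ∧ Orb c ⊆ zl P with hC
  have hle : (C.inf fun c => van (Orb c)) ≤ P := by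
    intro f hf
    have hf' : ∀ z ∈ zl P, eval z f = 0 := by
      intro z hz
      obtain ⟨c, hc, hzc⟩ := exists_orb z
      have hcC : c ∈ C := Finset.mem_filter.2
        ⟨Finset.mem_univ _, hc, orb_sub P hT hB c z hzc hz⟩
      have h1 : f ∈ van (Orb c) := (Finset.inf_le (f := fun c => van (Orb c)) hcC) hf
      exact h1 z hzc
    have h2 : f ∈ vanishingIdeal ℂ (zeroLocus ℂ P) := by
      rw [mem_vanishingIdeal_iff]
      intro z hz
      rw [mem_zeroLocus_iff] at hz
      rw [aeval_eq_eval]
      exact hf' z fun g hg => by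
        have := hz g hg
        rw [aeval_eq_eval] at this
        exact this
    rw [vanishingIdeal_zeroLocus_eq_radical, hP.radical] at h2
    exact h2
  obtain ⟨c, hc, hcP⟩ := (Ideal.IsPrime.inf_le' hP).1 hle
  obtain ⟨-, hc1, hc2⟩ := Finset.mem_filter.1 hc
  refine ⟨c, hc1, le_antisymm ?_ hcP⟩
  intro f hf z hz
  exact hc2 hz f hf

end Pool.Agent.KIR
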