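import Pool.Agent.KIR.Defs

/-!
# PROJECT KIR, section S4: elimination and the classification of the stable graded primes
-/

set_option autoImplicit false

namespace Pool.Agent.KIR

open MvPolynomial

namespace Cls

/-! ## Closed sets of families -/

section closed
variable {n : ℕ} {M : Type} [AddCommGroup M] [Module ℂ M]

/-- closed under the operations `a ← a + t b`, `b < a`, and under scaling -/
structure Clo (V : Set (Fin n → M)) : Prop where
  add : ∀ z ∈ V, ∀ a b : Fin n, b < a → ∀ t : ℂ, Function.update z a (z a + t • z b) ∈ V
  scl : ∀ z ∈ V, ∀ a : Fin n, ∀ d : ℂ, d ≠ 0 → Function.update z a (d • z a) ∈ V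

theorem row_aux {V : Set (Fin n → M)} (hV : Clo V) (z : Fin n → M) (hz : z ∈ V) (k : Fin n)
    (d : ℂ) (hd : d ≠ 0) (t : Fin n → ℂ) (s : Finset (Fin n)) :
    (∀ l ∈ s, l < k) → Function.update z k (d • z k + ∑ l ∈ s, t l • z l) ∈ V := by
  induction s using Finset.induction_on with
  | empty =>
    intro _
    rw [Finset.sum_empty, add_zero]
    exact hV.scl z hz k d hd
  | insert l s hl ih =>
    intro h
    have h1 := ih fun l' hl' => h l' (Finset.mem_insert_of_mem hl')
    have hlk := h l (Finset.mem_insert_self _ _)
    have h2 := hV.add _ h1 k l hlk (t l)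
    rw [Function.update_self, Function.update_of_ne (ne_of_lt hlk), Function.update_idem] at h2
    rw [Finset.sum_insert hl, add_comm (t l • z l), ← add_assoc]
    exact h2

theorem row_mp {V : Set (Fin n → M)} (hV : Clo V) (z : Fin n → M) (hz : z ∈ V) (k : Fin n)
    (d : ℂ) (hd : d ≠ 0) (t : Fin n → ℂ) :
    Function.update z k (d • z k + ∑ l ∈ Finset.Iio k, t l • z l) ∈ V :=
  row_aux hV z hz k d hd t _ fun _ hl => Finset.mem_Iio.1 hl

theorem row_iff {V : Set (Fin n → M)} (hV : Clo V) (z : Fin n → M) (k : Fin n)
    (d : ℂ) (hd : d ≠ 0) (t : Fin n → ℂ) :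
    z ∈ V ↔ Function.update z k (d • z k + ∑ l ∈ Finset.Iio k, t l • z l) ∈ V := by
  refine ⟨fun h => row_mp hV z h k d hd t, fun h => ?_⟩
  have h2 := row_mp hV _ h k d⁻¹ (inv_ne_zero hd) (fun l => - d⁻¹ * t l)
  rw [Function.update_self, Function.update_idem] at h2
  have e : d⁻¹ • (d • z k + ∑ l ∈ Finset.Iio k, t l • z l) +
      ∑ l ∈ Finset.Iio k, (- d⁻¹ * t l) • Function.update z k
        (d • z k + ∑ l ∈ Finset.Iio k, t l • z l) l = z k := by
    have e1 : ∑ l ∈ Finset.Iio k, (- d⁻¹ * t l) • Function.update z k
        (d • z k + ∑ l ∈ Finset.Iio k, t l • z l) l =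
        - (d⁻¹ • ∑ l ∈ Finset.Iio k, t l • z l) := by
      rw [Finset.smul_sum, ← Finset.sum_neg_distrib]
      refine Finset.sum_congr rfl fun l hl => ?_
      rw [Function.update_of_ne (ne_of_lt (Finset.mem_Iio.1 hl)), mul_smul, neg_smul]
    rw [e1, smul_add, smul_smul, inv_mul_cancel₀ hd, one_smul]
    abel
  rw [e, Function.update_eq_self] at h2
  exact h2

theorem tri_iff {V : Set (Fin n → M)} (hV : Clo V) (b : Matrix (Fin n) (Fin n) ℂ)
    (hb : ∀ i j, i < j → b i j = 0) (hb' : ∀ i, b i i ≠ 0) (z : Fin n → M) :
    z ∈ V ↔ (fun i => ∑ l, b i l • z l) ∈ V := by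
  have key : ∀ j : ℕ, j ≤ n → (z ∈ V ↔
      (fun i : Fin n => if (i : ℕ) < n - j then z i else ∑ l, b i l • z l) ∈ V) := by
    intro j
    induction j with
    | zero =>
      intro _
      have e : (fun i : Fin n => if (i : ℕ) < n - 0 then z i else ∑ l, b i l • z l) = z := by
        funext i
        rw [if_pos (by omega)]
      rw [e]
    | succ j ih =>
      intro hj
      rw [ih (by omega)]
      have hk : n - (j + 1) < n := by omega
      rw [row_iff hV _ ⟨n - (j + 1), hk⟩ (b ⟨n - (j + 1), hk⟩ ⟨n - (j + 1), hk⟩) (hb' _)
        (b ⟨n - (j + 1), hk⟩)]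
      have e : Function.update (fun i : Fin n => if (i : ℕ) < n - j then z i else
          ∑ l, b i l • z l) ⟨n - (j + 1), hk⟩
          (b ⟨n - (j + 1), hk⟩ ⟨n - (j + 1), hk⟩ • (if ((⟨n - (j + 1), hk⟩ : Fin n) : ℕ) < n - j then
            z ⟨n - (j + 1), hk⟩ else ∑ l, b ⟨n - (j + 1), hk⟩ l • z l) +
            ∑ l ∈ Finset.Iio (⟨n - (j + 1), hk⟩ : Fin n), b ⟨n - (j + 1), hk⟩ l •
              (if (l : ℕ) < n - j then z l else ∑ l', b l l' • z l')) =
          (fun i : Fin n => if (i : ℕ) < n - (j + 1) then z i else ∑ l, b i l • z l) := by
        funext i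
        by_cases hi : i = ⟨n - (j + 1), hk⟩
        · rw [hi, Function.update_self, if_neg (lt_irrefl _), if_pos (by
            change n - (j + 1) < n - j
            omega)]
          rw [← Finset.sum_subset (Finset.subset_univ (Finset.Iic (⟨n - (j + 1), hk⟩ : Fin n)))]
          · rw [← Finset.Iio_insert, Finset.sum_insert (by simp)]
            congr 1
            refine Finset.sum_congr rfl fun l hl => ?_
            have hl' := Finset.mem_Iio.1 hl
            rw [if_pos]
            have : (l : ℕ) < n - (j + 1) := hl'
            omega
          · intro l _ hl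
            rw [Finset.mem_Iic, not_le] at hl
            rw [hb _ _ hl, zero_smul]
        · rw [Function.update_of_ne hi]
          have hi' : (i : ℕ) ≠ n - (j + 1) := fun h => hi (Fin.ext h)
          by_cases h : (i : ℕ) < n - (j + 1)
          · rw [if_pos h, if_pos (by omega)]
          · rw [if_neg h, if_neg (by omega)]
      rw [e]
  have h := key n le_rfl
  have e : (fun i : Fin n => if (i : ℕ) < n - n then z i else ∑ l, b i l • z l) =
      fun i => ∑ l, b i l • z l := by
    funext i
    rw [if_neg (by omega)]
  rw [e] at h
  exact h

end closed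

/-! ## Elimination -/

theorem Mc_mul {n m : ℕ} (c : Fin n → Option (Fin m)) (b' : Matrix (Fin m) (Fin m) ℂ) (i : Fin n)
    (j : Fin m) : (Mc c * b') i j = (c i).elim 0 (fun k => b' k j) := by
  rw [Matrix.mul_apply]
  cases h : c i with
  | none =>
    simp only [Mc, Option.elim_none]
    exact Finset.sum_eq_zero fun k _ => by simp [h]
  | some k =>
    simp only [Mc, Option.elim_some]
    rw [Finset.sum_eq_single k]
    · simp [h]
    · intro k' _ hk'
      rw [if_neg (by rw [h]; intro h'; exact hk' (Option.some.inj h').symm), zero_mul]
    · intro h'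
      exact absurd (Finset.mem_univ _) h'

theorem elim {m : ℕ} (n : ℕ) : ∀ (A : Matrix (Fin n) (Fin m) ℂ) (Z : Set (Fin m)),
    (∀ i, ∀ j ∈ Z, A i j = 0) → ∃ (b : Matrix (Fin n) (Fin n) ℂ) (b' : Matrix (Fin m) (Fin m) ℂ)
      (c : Fin n → Option (Fin m)), (∀ i j, i < j → b i j = 0) ∧ (∀ i, b i i ≠ 0) ∧
      (∀ i j, j < i → b' i j = 0) ∧ (∀ i, b' i i ≠ 0) ∧ PInj c ∧
      (∀ i j, c i = some j → j ∉ Z) ∧ A = b * Mc c * b' := by
  induction n with
  | zero =>
    intro A Z _
    refine ⟨1, 1, fun i => i.elim0, fun i => i.elim0, fun i => i.elim0, ?_, ?_, fun i => i.elim0,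
      fun i => i.elim0, ?_⟩
    · intro i j h
      exact Matrix.one_apply_ne (ne_of_gt h)
    · intro i
      rw [Matrix.one_apply_eq]
      exact one_ne_zero
    · ext i
      exact i.elim0
  | succ n ih =>
    intro A Z hA
    by_cases h0 : ∀ j, A 0 j = 0
    · obtain ⟨b, b', c, h1, h2, h3, h4, h5, h6, h7⟩ := ih (fun i j => A i.succ j) Z
        (fun i j hj => hA i.succ j hj)
      refine ⟨Matrix.of (Fin.cons (Fin.cons 1 0) (fun i => Fin.cons 0 (b i))), b',
        Fin.cons none c, ?_, ?_, h3, h4, ?_, ?_, ?_⟩
      · intro i j hij
        induction i using Fin.cases with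
        | zero =>
          induction j using Fin.cases with
          | zero => exact absurd hij (lt_irrefl _)
          | succ j => rfl
        | succ i =>
          induction j using Fin.cases with
          | zero => exact absurd hij (Fin.not_lt_zero _)
          | succ j => exact h1 i j (Fin.succ_lt_succ_iff.1 hij)
      · intro i
        induction i using Fin.cases with
        | zero => exact one_ne_zero
        | succ i => exact h2 i
      · intro i i' j hi hi'
        induction i using Fin.cases with
        | zero => exact absurd hi (by simp)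
        | succ i =>
          induction i' using Fin.cases with
          | zero => exact absurd hi' (by simp)
          | succ i' => rw [h5 i i' j hi hi']
      · intro i j hi
        induction i using Fin.cases with
        | zero => exact absurd hi (by simp)
        | succ i => exact h6 i j hi
      · ext i j
        rw [Matrix.mul_assoc, Matrix.mul_apply, Fin.sum_univ_succ]
        have h7' : ∀ i j, A i.succ j = ∑ k, b i k * (Mc c * b') k j := by
          intro i j
          have := congrFun (congrFun h7 i) j
          rw [Matrix.mul_assoc, Matrix.mul_apply] at this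
          exact this
        induction i using Fin.cases with
        | zero =>
          rw [h0 j, Mc_mul]
          simp only [Matrix.of_apply, Fin.cons_zero, Option.elim_none, mul_zero, Fin.cons_succ,
            Pi.zero_apply, zero_mul, Finset.sum_const_zero, add_zero]
        | succ i =>
          rw [h7' i j, Mc_mul]
          simp only [Matrix.of_apply, Fin.cons_zero, Option.elim_none, mul_zero, Fin.cons_succ,
            zero_add]
          refine Finset.sum_congr rfl fun k _ => ?_
          rw [Mc_mul, Mc_mul]
          rfl
    · push Not at h0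
      obtain ⟨j0, hj0, hmin⟩ : ∃ j0, A 0 j0 ≠ 0 ∧ ∀ j, j < j0 → A 0 j = 0 := by
        classical
        obtain ⟨j0, hj0, hmin⟩ := Finset.exists_min_image (Finset.univ.filter fun j => A 0 j ≠ 0)
          (fun j => j) (by
            obtain ⟨j, hj⟩ := h0
            exact ⟨j, Finset.mem_filter.2 ⟨Finset.mem_univ _, hj⟩⟩)
        refine ⟨j0, (Finset.mem_filter.1 hj0).2, fun j hj => ?_⟩
        by_contra hne
        exact absurd (hmin j (Finset.mem_filter.2 ⟨Finset.mem_univ _, hne⟩)) (not_le.2 hj)
      have hj0Z : j0 ∉ Z := fun h => hj0 (hA 0 j0 h)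
      obtain ⟨b, b', c, h1, h2, h3, h4, h5, h6, h7⟩ := ih
        (fun i j => A i.succ j - A i.succ j0 / A 0 j0 * A 0 j) (insert j0 Z) (by
          intro i j hj
          rcases hj with rfl | hj
          · rw [div_mul_cancel₀ _ hj0, sub_self]
          · rw [hA _ j hj, hA _ j hj, mul_zero, sub_zero])
      have hc0 : ∀ i, c i ≠ some j0 := fun i hi => h6 i j0 hi (Set.mem_insert _ _)
      refine ⟨Matrix.of (Fin.cons (Fin.cons (A 0 j0) 0) (fun i => Fin.cons (A i.succ j0) (b i))),
        Matrix.updateRow b' j0 (fun j => A 0 j / A 0 j0),
        Fin.cons (some j0) c, ?_, ?_, ?_, ?_, ?_, ?_, ?_⟩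
      · intro i j hij
        induction i using Fin.cases with
        | zero =>
          induction j using Fin.cases with
          | zero => exact absurd hij (lt_irrefl _)
          | succ j => rfl
        | succ i =>
          induction j using Fin.cases with
          | zero => exact absurd hij (Fin.not_lt_zero _)
          | succ j => exact h1 i j (Fin.succ_lt_succ_iff.1 hij)
      · intro i
        induction i using Fin.cases with
        | zero => exact hj0
        | succ i => exact h2 i
      · intro i j hij
        by_cases hi : i = j0
        · rw [hi, Matrix.updateRow_self]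
          rw [hmin j (hi ▸ hij), zero_div]
        · rw [Matrix.updateRow_ne hi]
          exact h3 i j hij
      · intro i
        by_cases hi : i = j0
        · rw [hi, Matrix.updateRow_self]
          rw [div_self hj0]
          exact one_ne_zero
        · rw [Matrix.updateRow_ne hi]
          exact h4 i
      · intro i i' j hi hi'
        induction i using Fin.cases with
        | zero =>
          induction i' using Fin.cases with
          | zero => rfl
          | succ i' =>
            rw [Fin.cons_zero] at hi
            rw [Fin.cons_succ] at hi'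
            exact absurd (hi'.trans hi.symm) (hc0 i')
        | succ i =>
          induction i' using Fin.cases with
          | zero =>
            rw [Fin.cons_zero] at hi'
            rw [Fin.cons_succ] at hi
            exact absurd (hi.trans hi'.symm) (hc0 i)
          | succ i' => rw [h5 i i' j hi hi']
      · intro i j hi
        induction i using Fin.cases with
        | zero =>
          rw [Fin.cons_zero] at hi
          rw [← Option.some.inj hi]
          exact hj0Z
        | succ i => exact fun hj => h6 i j hi (Set.mem_insert_of_mem _ hj)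
      · ext i j
        rw [Matrix.mul_assoc, Matrix.mul_apply, Fin.sum_univ_succ]
        have h7' : ∀ i j, A i.succ j = A i.succ j0 / A 0 j0 * A 0 j +
            ∑ k, b i k * (Mc c * b') k j := by
          intro i j
          have := congrFun (congrFun h7 i) j
          rw [Matrix.mul_assoc, Matrix.mul_apply] at this
          rw [← this]
          ring
        induction i using Fin.cases with
        | zero =>
          rw [Mc_mul]
          simp only [Matrix.of_apply, Fin.cons_zero, Option.elim_some, Fin.cons_succ,
            Pi.zero_apply, zero_mul, Finset.sum_const_zero, add_zero, Matrix.updateRow_self]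
          field_simp
        | succ i =>
          rw [h7' i j, Mc_mul]
          simp only [Matrix.of_apply, Fin.cons_zero, Option.elim_some, Fin.cons_succ,
            Matrix.updateRow_self]
          congr 1
          · field_simp
          · refine Finset.sum_congr rfl fun k _ => ?_
            rw [Mc_mul, Mc_mul, Fin.cons_succ]
            cases hk : c k with
            | none => rfl
            | some l =>
              simp only [Option.elim_some]
              rw [Matrix.updateRow_ne (fun h => hc0 k (by rw [hk, h]))]

end Cls

end Pool.Agent.KIR
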